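import Pool.Agent.K4H28.FI.Num
import Pool.Agent.H938R2.General
import Pool.Agent.H938R2.Semi
import Pool.Agent.H938R2.Count

set_option autoImplicit false
set_option linter.unusedSectionVars false

/-!
# From points in an affine chart to general points with homogeneous coordinates
-/

namespace Pool.Agent.K4H28.FI

open MvPolynomial
open Pool.Agent.H938R2 (VanishesToOrder ForGeneral forms_semicontinuous finrank_forms_ge
  forGeneral_ne_zero)
open Pool.Agent.K4H28.SP (gd gd_spec)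
open Pool.Agent.H248R5 (tau)

theorem map_vars : (idealOfVars (Fin 3) ℂ).map
    (aeval ![X 0, X 1, 0] : MvPolynomial (Fin 3) ℂ →ₐ[ℂ] MvPolynomial (Fin 2) ℂ) ≤
      idealOfVars (Fin 2) ℂ := by
  unfold idealOfVars
  rw [Ideal.map_span, Ideal.span_le]
  rintro _ ⟨_, ⟨j, rfl⟩, rfl⟩
  rw [aeval_X]
  fin_cases j
  · exact Ideal.subset_span ⟨0, rfl⟩
  · exact Ideal.subset_span ⟨1, rfl⟩
  · exact Ideal.zero_mem _

theorem vanish_tau {m : ℕ} {p : Fin 2 → ℂ} {F : MvPolynomial (Fin 3) ℂ}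
    (h : VanishesToOrder m ![p 0, p 1, 1] F) :
    ∀ s : Fin 2 →₀ ℕ, s.degree < m → coeff s (tau p F) = 0 := by
  set G : MvPolynomial (Fin 3) ℂ :=
    aeval (fun j => (X j + C ((![p 0, p 1, 1] : Fin 3 → ℂ) j) : MvPolynomial (Fin 3) ℂ)) F with hG
  have h1 : G ∈ idealOfVars (Fin 3) ℂ ^ m := (mem_pow_idealOfVars_iff' _ _).2 h
  have h2 : tau p F = (aeval ![X 0, X 1, 0] : MvPolynomial (Fin 3) ℂ →ₐ[ℂ]
      MvPolynomial (Fin 2) ℂ) G := by
    rw [hG, ← AlgHom.comp_apply]
    unfold tau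
    congr 1
    refine algHom_ext fun j => ?_
    rw [AlgHom.comp_apply, aeval_X, aeval_X, map_add, aeval_X]
    have hC : ∀ c : ℂ, (aeval ![X 0, X 1, 0] : MvPolynomial (Fin 3) ℂ →ₐ[ℂ]
      MvPolynomial (Fin 2) ℂ) (C c) = C c := fun c => aeval_C _ _
    rw [hC]
    fin_cases j
    · rfl
    · rfl
    · change (1 : MvPolynomial (Fin 2) ℂ) = 0 + C 1
      rw [zero_add, C_1]
  have h3 : tau p F ∈ idealOfVars (Fin 2) ℂ ^ m := by
    rw [h2]
    have h4 := Ideal.mem_map_of_mem (aeval ![X 0, X 1, 0] : MvPolynomial (Fin 3) ℂ →ₐ[ℂ]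
      MvPolynomial (Fin 2) ℂ) h1
    rw [Ideal.map_pow] at h4
    exact Ideal.pow_right_mono map_vars m h4
  exact (mem_pow_idealOfVars_iff' _ _).1 h3

theorem forms_le {m D s : ℕ} (P : Fin s → Fin 2 → ℂ) :
    Pool.Agent.H938R2.forms 3 D (fun _ : Fin s => m) (fun i => ![P i 0, P i 1, 1]) ≤
      Pool.Agent.H248R5.forms (fun _ : Fin s => m) P D := by
  rintro F ⟨hF, h⟩
  exact Pool.Agent.K4H28.SP.mem_forms'.2 ⟨hF, fun i => vanish_tau (h i)⟩

theorem exists_gen (m D s : ℕ) : ∃ P : Fin s → Fin 2 → ℂ,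
    Module.finrank ℂ ↥(Pool.Agent.H248R5.forms (fun _ : Fin s => m) P D) =
      gd (fun _ : Fin s => m) D := by
  obtain ⟨F, hF, h⟩ := gd_spec (fun _ : Fin s => m) D
  obtain ⟨x, hx⟩ : ∃ x : Fin s × Fin 2 → ℂ, eval x (F.map (algebraMap ℚ ℂ)) ≠ 0 := by
    by_contra hcon
    push Not at hcon
    have h0 : F.map (algebraMap ℚ ℂ) = 0 := MvPolynomial.funext fun x => by rw [hcon x, map_zero]
    exact hF (map_injective _ (algebraMap ℚ ℂ).injective (h0.trans (map_zero _).symm))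
  rw [eval_map] at hx
  exact ⟨fun i j => x (i, j), h ℂ (fun i j => x (i, j)) hx⟩

/-- The dimension for general points with homogeneous coordinates. -/
theorem dimension {m D s : ℕ} (h : Good m D s) :
    ForGeneral 3 s (fun p =>
      Module.finrank ℂ (Pool.Agent.H938R2.forms 3 D (fun _ => m) p) =
        (D + 2).choose 2 - s * (m + 1).choose 2) := by
  obtain ⟨P, hP⟩ := exists_gen m D s
  have h1 : Module.finrank ℂ ↥(Pool.Agent.H938R2.forms 3 D (fun _ : Fin s => m)
      (fun i => ![P i 0, P i 1, 1])) ≤ (D + 2).choose 2 - s * (m + 1).choose 2 := by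
    refine (Submodule.finrank_mono (forms_le P)).trans ?_
    rw [hP]
    rcases h with h | h
    · rw [h]
      exact Nat.zero_le _
    · omega
  refine ((forms_semicontinuous _ _ h1).and (forGeneral_ne_zero (by omega))).mono fun p hp => ?_
  refine le_antisymm hp.1 ?_
  have h2 : (D + 2).choose 2 ≤ Module.finrank ℂ (Pool.Agent.H938R2.forms 3 D (fun _ => m) p) +
      ∑ _i : Fin s, (m + 2 - 1).choose 2 := finrank_forms_ge 2 D (fun _ : Fin s => m) p hp.2
  rw [Finset.sum_const, Finset.card_univ, Fintype.card_fin, smul_eq_mul] at h2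
  have e : m + 2 - 1 = m + 1 := by omega
  rw [e] at h2
  omega

end Pool.Agent.K4H28.FI
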