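import Pool.Agent.K4H28.RS.Fin
import Pool.Agent.K4H28.SPB.Three

set_option autoImplicit false
set_option linter.unusedSectionVars false

/-!
# Equal multiplicities: the numbers of points for which the system is special
-/

namespace Pool.Agent.K4H28.FI

open Pool.Agent.K4H28.SP
open Pool.Agent.K4H28.RS

/-- The system of degree `D` with `s` general points of multiplicity `m` is empty or has the virtual
dimension. -/
def Good (m D s : ℕ) : Prop :=
  gd (fun _ : Fin s => m) D = 0 ∨
    gd (fun _ : Fin s => m) D + s * (m + 1).choose 2 = (D + 2).choose 2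

theorem sum_const' (m s : ℕ) : ∑ _i : Fin s, (m + 1).choose 2 = s * (m + 1).choose 2 := by
  rw [Finset.sum_const, Finset.card_univ, Fintype.card_fin, smul_eq_mul]

theorem ge' (m D s : ℕ) : (D + 2).choose 2 ≤
    gd (fun _ : Fin s => m) D + s * (m + 1).choose 2 := by
  have h := gd_ge (m := fun _ : Fin s => m) (d := D)
  rwa [sum_const'] at h

theorem good_small {m : ℕ} (hm : m ≤ 1) (D s : ℕ) (hs : 1 ≤ s) : Good m D s := by
  have h := gd_bd (m := fun _ : Fin s => m) (d := D) (i₀ := ⟨0, hs⟩) (a := m) (b := m) le_rfl le_rfl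
    (fun _ _ => le_rfl)
  rw [sum_const'] at h
  rcases h with h | h
  · exact Or.inr h
  · left
    have : m - 1 = 0 := by omega
    rw [this, zero_mul] at h
    omega

theorem drop {m D s t : ℕ} (hne : 1 ≤ gd (fun _ : Fin s => m) D) (ht : 2 ≤ t) :
    gd (fun _ : Fin (s - t) => m) D + (s - t) * (m + 1).choose 2 = (D + 2).choose 2 := by
  have h1 := (gd_two_largest (s := s) (d := D) (m := fun _ => m) (fun _ _ _ => le_rfl) hne).1 t ht
  rwa [sum_const'] at h1

theorem two (m D : ℕ) : ∃ s₀ : ℕ, ∀ s : ℕ, ¬ Good m D s → s = s₀ ∨ s = s₀ + 1 := by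
  by_cases hex : ∃ s, ¬ Good m D s
  · classical
    refine ⟨Nat.find hex, fun s hs => ?_⟩
    have hs0 := Nat.find_spec hex
    have hle := Nat.find_min' hex hs
    set s₀ := Nat.find hex
    by_contra hcon
    have hne : 1 ≤ gd (fun _ : Fin s => m) D := by
      by_contra h
      exact hs (Or.inl (by omega))
    have h1 := drop (t := s - s₀) hne (by omega)
    have h2 : s - (s - s₀) = s₀ := by omega
    rw [h2] at h1
    exact hs0 (Or.inr h1)
  · exact ⟨0, fun s hs => absurd ⟨s, hs⟩ hex⟩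

theorem two_choose (x : ℕ) : 2 * (x + 1).choose 2 = (x + 1) * x := by
  rw [Nat.choose_two_right, Nat.add_sub_cancel]
  refine Nat.mul_div_cancel' ?_
  rw [mul_comm]
  exact (Nat.even_mul_succ_self x).two_dvd

/-- If there are at least `q ^ 2 + 2` points and the system is special, then the multiplicity is
small. -/
theorem bound {m d s q : ℕ} (hq : 2 ≤ q) (hs : q ^ 2 + 2 ≤ s) (h : ¬ Good m (m + d - 1) s)
    (hd : 1 ≤ d) : 2 ≤ m ∧ m ≤ (d - 1) / (q - 1) := by
  have hm : 2 ≤ m := by
    by_contra hcon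
    exact h (good_small (by omega) _ _ (by omega))
  refine ⟨hm, ?_⟩
  have hne : 1 ≤ gd (fun _ : Fin s => m) (m + d - 1) := by
    by_contra h'
    exact h (Or.inl (by omega))
  have h1 := drop (t := s - q ^ 2) hne (by omega)
  have e0 : s - (s - q ^ 2) = q ^ 2 := by omega
  rw [e0] at h1
  have h2 : q ^ 2 * (m + 1).choose 2 ≤ (m + d - 1 + 2).choose 2 := by omega
  have e1 : m + d - 1 + 2 = m + d + 1 := by omega
  rw [e1] at h2
  have h4 := two_choose m
  have h5 := two_choose (m + d)
  have h6 : q ^ 2 * ((m + 1) * m) ≤ (m + d + 1) * (m + d) := by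
    rw [← h4, ← h5]
    calc q ^ 2 * (2 * (m + 1).choose 2) = 2 * (q ^ 2 * (m + 1).choose 2) := by ring
      _ ≤ 2 * (m + d + 1).choose 2 := Nat.mul_le_mul_left _ h2
  rw [Nat.le_div_iff_mul_le (by omega)]
  by_contra hcon
  push Not at hcon
  obtain ⟨v, rfl⟩ : ∃ v, q = v + 1 := ⟨q - 1, by omega⟩
  rw [Nat.add_sub_cancel] at hcon
  have h7 : m + d ≤ (v + 1) * m := by
    have : (v + 1) * m = m * v + m := by ring
    omega
  obtain ⟨u, hu⟩ : ∃ u, (v + 1) * m = u := ⟨_, rfl⟩
  rw [hu] at h7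
  have h8 : (v + 1) ^ 2 * ((m + 1) * m) = u * u + (v + 1) * u := by
    rw [← hu]
    ring
  rw [h8] at h6
  have h9 : (m + d) * (m + d) ≤ u * u := Nat.mul_le_mul h7 h7
  have h10 : 2 * (m + d) ≤ (v + 1) * u := Nat.mul_le_mul (by omega) h7
  have h11 : (m + d + 1) * (m + d) = (m + d) * (m + d) + (m + d) := by ring
  omega

end Pool.Agent.K4H28.FI
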